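import Pool.Agent.W780.BB.Stm

/-! # Reversal of itineraries -/

set_option autoImplicit false

namespace W973.BB

open Complex Set Pool.Agent.W780.PG Pool.Agent.W780.BB

open scoped Real ComplexConjugate

variable {n : ℕ}

theorem sf_line (p : Fin (n + 3) → ℂ) (i : Fin (n + 3)) (u v : ℂ) (s : ℝ) :
    sf p i (u + s • (v - u)) = sf p i u + s * (sf p i v - sf p i u) := by
  unfold sf lft
  simp only [Complex.mul_im, Complex.sub_re, Complex.sub_im, Complex.add_re, Complex.add_im,
    Complex.conj_re, Complex.conj_im, Complex.smul_re, Complex.smul_im, smul_eq_mul]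
  ring

/-- the chain condition without the condition on the end point -/
def Ch0 (p : Fin (n + 3) → ℂ) : List (Fin (n + 3)) → ℂ → ℂ → Prop
  | [], _, _ => True
  | i :: w, B, A => 0 < sf p i B ∧ sf p i A < 0 ∧ (∀ j, j ≠ i → 0 < sf p j (cr p i B A)) ∧
      Ch0 p w (cr p i B A) (rf p i A)

/-- the last crossing point -/
noncomputable def lp (p : Fin (n + 3) → ℂ) : List (Fin (n + 3)) → ℂ → ℂ → ℂ
  | [], B, _ => B
  | i :: w, B, A => lp p w (cr p i B A) (rf p i A)

theorem ch_iff (p : Fin (n + 3) → ℂ) (w : List (Fin (n + 3))) : ∀ B A : ℂ,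
    Ch p w B A ↔ Ch0 p w B A ∧ fp p w A ∈ reg p := by
  induction w with
  | nil =>
    intro B A
    simp only [Ch, Ch0, fp, true_and]
  | cons i w ih =>
    intro B A
    simp only [Ch, Ch0, fp, ih]
    tauto

theorem fp_append (p : Fin (n + 3) → ℂ) (u v : List (Fin (n + 3))) : ∀ z : ℂ,
    fp p (u ++ v) z = fp p v (fp p u z) := by
  induction u with
  | nil => intro z; rfl
  | cons i u ih =>
    intro z
    change fp p (u ++ v) (rf p i z) = fp p v (fp p u (rf p i z))
    exact ih _

theorem fp_reverse (p : Fin (n + 3) → ℂ) (hinv : ∀ i z, rf p i (rf p i z) = z)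
    (w : List (Fin (n + 3))) : ∀ z : ℂ, fp p w.reverse (fp p w z) = z := by
  induction w with
  | nil => intro z; rfl
  | cons i w ih =>
    intro z
    rw [List.reverse_cons, fp_append]
    change fp p [i] (fp p w.reverse (fp p w (rf p i z))) = z
    rw [ih]
    change rf p i (rf p i z) = z
    exact hinv i z

theorem ch0_append (p : Fin (n + 3) → ℂ) (u v : List (Fin (n + 3))) : ∀ B A : ℂ,
    Ch0 p (u ++ v) B A ↔ Ch0 p u B A ∧ Ch0 p v (lp p u B A) (fp p u A) := by
  induction u with
  | nil =>
    intro B A
    simp only [List.nil_append, Ch0, lp, fp, true_and]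
  | cons i u ih =>
    intro B A
    simp only [List.cons_append, Ch0, lp, fp, ih]
    tauto

theorem key (p : Fin (n + 3) → ℂ)
    (h0 : ∀ i z, sf p i z = 0 → rf p i z = z)
    (ha : ∀ i z w (s : ℝ), rf p i (z + s • (w - z)) = rf p i z + s • (rf p i w - rf p i z))
    (w : List (Fin (n + 3))) : ∀ B A : ℂ, Ch0 p w B A → ∃ t : ℝ, 0 ≤ t ∧ t < 1 ∧
      lp p w B A = fp p w (B + t • (A - B)) ∧
      ∀ s : ℝ, t < s → s ≤ 1 → Ch0 p w B (B + s • (A - B)) := by
  induction w with
  | nil =>
    intro B A _
    refine ⟨0, le_rfl, one_pos, ?_, fun s _ _ => trivial⟩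
    simp only [lp, fp, zero_smul, add_zero]
  | cons i w ih =>
    intro B A hc
    obtain ⟨hB, hA, hj, hrec⟩ := hc
    obtain ⟨t', ht0, ht1, hlp, hs⟩ := ih _ _ hrec
    set b := sf p i B with hb
    set a := sf p i A with ha'
    have hba : 0 < b - a := by linarith
    set τ : ℝ := b / (b - a) with hτ
    have hτ0 : 0 < τ := div_pos hB hba
    have hτ1 : τ < 1 := by rw [hτ, div_lt_one hba]; linarith
    have hτe : τ * (b - a) = b := div_mul_cancel₀ _ hba.ne'
    set d : ℂ := cr p i B A with hd
    have hd' : d = B + τ • (A - B) := rfl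
    have hsd : sf p i d = 0 := by
      rw [hd', sf_line, ← hb, ← ha']
      linarith
    have hrd : rf p i d = d := h0 i d hsd
    have hconv : ∀ s' : ℝ, d + s' • (rf p i A - d) =
        rf p i (B + (τ + s' * (1 - τ)) • (A - B)) := by
      intro s'
      have e1 : d + s' • (rf p i A - d) = rf p i (d + s' • (A - d)) := by
        rw [ha, hrd]
      rw [e1, hd']
      congr 1
      simp only [Complex.real_smul]
      push_cast
      ring
    refine ⟨τ + t' * (1 - τ), by nlinarith, by nlinarith, ?_, ?_⟩
    · change lp p w d (rf p i A) = fp p w (rf p i (B + (τ + t' * (1 - τ)) • (A - B)))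
      rw [hlp, hconv]
    · intro s hs1 hs2
      have hsτ : τ < s := by nlinarith
      have hs0 : 0 < s := hτ0.trans hsτ
      have hsf : sf p i (B + s • (A - B)) = b + s * (a - b) := by rw [sf_line]
      have hcr : cr p i B (B + s • (A - B)) = d := by
        rw [hd']
        unfold cr
        rw [hsf, ← hb]
        have e2 : b - (b + s * (a - b)) = s * (b - a) := by ring
        rw [e2, add_sub_cancel_left, smul_smul]
        congr 2
        rw [hτ]
        field_simp
      refine ⟨hB, ?_, ?_, ?_⟩
      · rw [hsf]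
        nlinarith
      · rw [hcr]
        exact hj
      · rw [hcr]
        have h1τ : 0 < 1 - τ := by linarith
        have e3 : rf p i (B + s • (A - B)) = d + ((s - τ) / (1 - τ)) • (rf p i A - d) := by
          rw [hconv]
          congr 3
          rw [div_mul_cancel₀ _ h1τ.ne']
          ring
        rw [e3]
        apply hs
        · rw [lt_div_iff₀ h1τ]
          linarith
        · rw [div_le_one h1τ]
          linarith

theorem rev0 (p : Fin (n + 3) → ℂ) (hinv : ∀ i z, rf p i (rf p i z) = z)
    (hneg : ∀ i z, sf p i (rf p i z) = - sf p i z)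
    (h0 : ∀ i z, sf p i z = 0 → rf p i z = z)
    (ha : ∀ i z w (s : ℝ), rf p i (z + s • (w - z)) = rf p i z + s • (rf p i w - rf p i z))
    (hfa : ∀ w z w' (s : ℝ), fp p w (z + s • (w' - z)) = fp p w z + s • (fp p w w' - fp p w z))
    (w : List (Fin (n + 3))) (B : ℂ) : ∀ A : ℂ, Ch0 p w B A →
      Ch0 p w.reverse (fp p w A) (fp p w B) := by
  induction w using List.reverseRecOn with
  | nil => intro A _; trivial
  | append_singleton w k ih =>
    intro A hc
    rw [ch0_append] at hc
    obtain ⟨hc1, ha1, hb1, hj, -⟩ := hc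
    obtain ⟨t, ht0, ht1, hlp, hs⟩ := key p h0 ha w B A hc1
    set c := lp p w B A with hcdef
    set a := sf p k c with hadef
    set P := fp p w A with hP
    set Q := fp p w B with hQ
    set b := sf p k P with hbdef
    set f0 := sf p k Q with hf0
    have hcpq : c = Q + t • (P - Q) := by rw [hlp, hfa]
    have haf : a = f0 + t * (b - f0) := by rw [hadef, hcpq, sf_line]
    have hf0pos : 0 < f0 := by nlinarith
    have hfb : 0 < f0 - b := by linarith
    set σ : ℝ := f0 / (f0 - b) with hσ
    have hσe : σ * (f0 - b) = f0 := div_mul_cancel₀ _ hfb.ne'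
    have hσt : t < σ := by
      rw [hσ, lt_div_iff₀ hfb]
      linarith
    have hσ1 : σ < 1 := by rw [hσ, div_lt_one hfb]; linarith
    set y : ℂ := Q + σ • (P - Q) with hy
    have hcry : cr p k c P = y := by
      unfold cr
      rw [← hadef, ← hbdef, hy, hcpq]
      have hab : 0 < a - b := by linarith
      have e1 : σ = t + (a / (a - b)) * (1 - t) := by
        rw [hσ]
        have e2 : a - b = (1 - t) * (f0 - b) := by rw [haf]; ring
        have h1t : 0 < 1 - t := by linarith
        rw [e2, haf]
        field_simp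
        ring
      rw [e1]
      simp only [Complex.real_smul]
      push_cast
      ring
    have hyY : y = fp p w (B + σ • (A - B)) := by rw [hfa]
    have hsy : sf p k y = 0 := by
      rw [hy, sf_line, ← hf0, ← hbdef]
      linarith
    have hih := ih (B + σ • (A - B)) (hs σ hσt hσ1.le)
    rw [← hyY] at hih
    rw [List.reverse_append, fp_append, fp_append]
    change 0 < sf p k (rf p k P) ∧ sf p k (rf p k Q) < 0 ∧
      (∀ j, j ≠ k → 0 < sf p j (cr p k (rf p k P) (rf p k Q))) ∧
      Ch0 p w.reverse (cr p k (rf p k P) (rf p k Q)) (rf p k (rf p k Q))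
    have hcr2 : cr p k (rf p k P) (rf p k Q) = y := by
      unfold cr
      rw [hneg, hneg, ← hbdef, ← hf0, ← ha]
      have e3 : P + (-b / (-b - -f0)) • (Q - P) = y := by
        rw [hy]
        have e4 : (-b / (-b - -f0)) = 1 - σ := by
          rw [hσ]
          have e5 : -b - -f0 = f0 - b := by ring
          rw [e5]
          field_simp
          ring
        rw [e4]
        simp only [Complex.real_smul]
        push_cast
        ring
      rw [e3]
      exact h0 k y hsy
    rw [hcr2, hneg, hneg, hinv]
    refine ⟨by linarith, by linarith, ?_, hih⟩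
    rw [← hcry]
    exact hj

theorem rev (hRef : S_Ref) : S_Rev := by
  intro n p hp w B A hB hc
  obtain ⟨hinv, -, hneg, h0, -, ha, -, -, -, hfa, -, -⟩ := hRef n p hp
  rw [ch_iff] at hc ⊢
  refine ⟨rev0 p hinv hneg h0 ha hfa w B A hc.1, ?_⟩
  rw [fp_reverse p hinv]
  exact hB

end W973.BB
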